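import Pool.Agent.H13.CMS.Defs
import Pool.Agent.CarpetMeasures.Final

/-! # The plane `ℂ` and the plane `EuclideanSpace ℝ (Fin 2)` -/

set_option autoImplicit false
set_option linter.unusedVariables false

open MeasureTheory Metric Set

namespace Pool.MP_a82451_an.Conv

open Pool.MP_a82451_an

abbrev PL := Pool.Agent.CarpetMeasures.Plane

/-- the isometry -/
noncomputable def L : ℂ ≃ₗᵢ[ℝ] PL := Complex.orthonormalBasisOneI.repr

theorem L_zero (z : ℂ) : L z 0 = z.re := by
  simp [L, Complex.orthonormalBasisOneI_repr_apply]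

theorem L_one (z : ℂ) : L z 1 = z.im := by
  simp [L, Complex.orthonormalBasisOneI_repr_apply]

theorem ext' {p q : PL} (h0 : p 0 = q 0) (h1 : p 1 = q 1) : p = q := by
  ext i
  fin_cases i
  · exact h0
  · exact h1

theorem L_diag (a b t u : ℝ) (z : ℂ) :
    L (diagMap a b t u z) = Pool.Agent.CarpetMeasures.diagMap a b t u (L z) := by
  apply ext'
  · rw [L_zero]; simp [diagMap, Pool.Agent.CarpetMeasures.diagMap, L_zero]
  · rw [L_one]; simp [diagMap, Pool.Agent.CarpetMeasures.diagMap, L_one]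

theorem L_swap (z : ℂ) : L (swapPt z) = Pool.Agent.CarpetMeasures.swapPt (L z) := by
  apply ext'
  · rw [L_zero]; simp [swapPt, Pool.Agent.CarpetMeasures.swapPt, L_one]
  · rw [L_one]; simp [swapPt, Pool.Agent.CarpetMeasures.swapPt, L_zero]

theorem L_square : L '' unitSquare = Pool.Agent.CarpetMeasures.unitSquare := by
  ext p
  constructor
  · rintro ⟨z, hz, rfl⟩ k
    fin_cases k
    · change L z 0 ∈ _
      rw [L_zero]; exact ⟨hz.1, hz.2.1⟩
    · change L z 1 ∈ _
      rw [L_one]; exact ⟨hz.2.2.1, hz.2.2.2⟩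
  · intro hp
    refine ⟨L.symm p, ?_, L.apply_symm_apply p⟩
    have h0 := hp 0
    have h1 := hp 1
    rw [← L.apply_symm_apply p, L_zero] at h0
    rw [← L.apply_symm_apply p, L_one] at h1
    exact ⟨h0.1, h0.2, h1.1, h1.2⟩

theorem L_image_diag (a b t u : ℝ) (S : Set ℂ) :
    L '' (diagMap a b t u '' S) = Pool.Agent.CarpetMeasures.diagMap a b t u '' (L '' S) := by
  rw [image_image, image_image]
  exact image_congr fun z _ => L_diag a b t u z

theorem L_interior (S : Set ℂ) : interior (L '' S) = L '' interior S :=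
  (L.toHomeomorph.image_interior S).symm

theorem projY_image (S : Set ℂ) :
    Pool.Agent.CarpetMeasures.projY '' (L '' S) = Complex.im '' S := by
  rw [image_image]
  exact image_congr fun z _ => L_one z

theorem attractor {ι : Type} {f : ι → ℂ → ℂ} {f' : ι → PL → PL} (hf : ∀ i z, L (f i z) = f' i (L z))
    {F : Set ℂ} (h : IsAttractor f F) : Pool.Agent.CarpetMeasures.IsAttractor f' (L '' F) := by
  refine ⟨h.1.image L.continuous, h.2.1.image _, ?_⟩
  conv_lhs => rw [h.2.2]
  rw [image_iUnion]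
  refine iUnion_congr fun i => ?_
  rw [image_image, image_image]
  exact image_congr fun z _ => hf i z

theorem lalley {F : Set ℂ} (h : IsLalleyGatzouras F) :
    Pool.Agent.CarpetMeasures.IsLalleyGatzouras (L '' F) := by
  obtain ⟨h0, n, a, b, t, u, hn, hab, h1, h2, h3⟩ := h
  refine ⟨?_, n, a, b, t, u, hn, hab, ?_, ?_, ?_⟩
  · rw [← L_square]; exact image_mono h0
  · intro i j hij
    rw [← L_square, ← L_image_diag, ← L_image_diag, L_interior, L_interior,
      disjoint_image_iff L.injective, disjoint_iff_inter_eq_empty]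
    exact h1 i j hij
  · intro i j
    rw [← L_square, ← L_image_diag, ← L_image_diag, projY_image, projY_image,
      disjoint_iff_inter_eq_empty]
    exact h2 i j
  · exact attractor (fun i z => L_diag (a i) (b i) (t i) (u i) z) h3

theorem baranski {F : Set ℂ} (h : IsBaranski F) :
    Pool.Agent.CarpetMeasures.IsBaranski (L '' F) := by
  obtain ⟨m, n, c, d, A, h1, h2, h3, h4, h5, h6, h7, h8⟩ := h
  refine ⟨m, n, c, d, A, h1, h2, h3, h4, h5, h6, h7, ?_⟩
  exact attractor (fun p z => L_diag (c p.1.1) (d p.1.2) _ _ z) h8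

theorem carpet {F : Set ℂ} (h : IsSelfAffineCarpet F) :
    Pool.Agent.CarpetMeasures.IsSelfAffineCarpet (L '' F) := by
  rcases h with h | h | h
  · exact Or.inl (lalley h)
  · refine Or.inr (Or.inl ?_)
    have h1 : Pool.Agent.CarpetMeasures.swapPt '' (L '' F) = L '' (swapPt '' F) := by
      rw [image_image, image_image]
      exact image_congr fun z _ => (L_swap z).symm
    rw [h1]
    exact lalley h
  · exact Or.inr (Or.inr (baranski h))

theorem coverNum_eq {r : ℝ} (hr : 0 < r) (E : Set ℂ) :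
    Pool.Agent.CarpetMeasures.coverNum r (L '' E) = coverNum r E := by
  unfold Pool.Agent.CarpetMeasures.coverNum coverNum
  congr 1
  ext n
  constructor
  · rintro ⟨U, hU, hE⟩
    refine ⟨fun i => L ⁻¹' (U i), ?_, ?_⟩
    · intro i z hz w hw
      have h1 : edist (L z) (L w) ≤ ENNReal.ofReal r :=
        (Metric.edist_le_ediam_of_mem (s := U i) hz hw).trans (hU i)
      rw [edist_le_ofReal hr.le, L.dist_map] at h1
      exact h1
    · intro z hz
      obtain ⟨i, hi⟩ := mem_iUnion.1 (hE ⟨z, hz, rfl⟩)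
      exact mem_iUnion.2 ⟨i, hi⟩
  · rintro ⟨U, hU, hE⟩
    refine ⟨fun i => L '' (U i), ?_, ?_⟩
    · intro i
      refine Metric.ediam_le fun x hx y hy => ?_
      obtain ⟨z, hz, rfl⟩ := hx
      obtain ⟨w, hw, rfl⟩ := hy
      rw [edist_le_ofReal hr.le, L.dist_map]
      exact hU i z hz w hw
    · rw [← image_iUnion]
      exact image_mono hE

theorem ball_inter (F : Set ℂ) (x : ℂ) (R : ℝ) :
    closedBall (L x) R ∩ L '' F = L '' (closedBall x R ∩ F) := by
  rw [image_inter L.injective, L.image_closedBall]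

theorem assouad (F : Set ℂ) :
    Pool.Agent.CarpetMeasures.assouadDim (L '' F) = assouadDim F := by
  unfold Pool.Agent.CarpetMeasures.assouadDim assouadDim
  congr 1
  ext s
  constructor
  · rintro ⟨h0, C, hC, h⟩
    refine ⟨h0, C, hC, fun x hx r R hr hrR => ?_⟩
    have h1 := h (L x) ⟨x, hx, rfl⟩ r R hr hrR
    rwa [ball_inter, coverNum_eq hr] at h1
  · rintro ⟨h0, C, hC, h⟩
    refine ⟨h0, C, hC, ?_⟩
    rintro _ ⟨x, hx, rfl⟩ r R hr hrR
    rw [ball_inter, coverNum_eq hr]
    exact h x hx r R hr hrR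

theorem lower (F : Set ℂ) :
    Pool.Agent.CarpetMeasures.lowerDim (L '' F) = lowerDim F := by
  unfold Pool.Agent.CarpetMeasures.lowerDim lowerDim
  rw [L.isometry.diam_image]
  congr 1
  ext s
  constructor
  · rintro ⟨h0, C, hC, h⟩
    refine ⟨h0, C, hC, fun x hx r R hr hrR hR => ?_⟩
    have h1 := h (L x) ⟨x, hx, rfl⟩ r R hr hrR hR
    rwa [ball_inter, coverNum_eq hr] at h1
  · rintro ⟨h0, C, hC, h⟩
    refine ⟨h0, C, hC, ?_⟩
    rintro _ ⟨x, hx, rfl⟩ r R hr hrR hR
    rw [ball_inter, coverNum_eq hr]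
    exact h x hx r R hr hrR hR

section Push

variable (μ : Measure PL)

/-- the measure on `ℂ` -/
noncomputable def pull : Measure ℂ := μ.map L.symm

theorem meas : Measurable (L.symm : PL → ℂ) := L.symm.continuous.measurable

theorem pull_ball (x : ℂ) (r : ℝ) : pull μ (closedBall x r) = μ (closedBall (L x) r) := by
  rw [pull, Measure.map_apply meas isClosed_closedBall.measurableSet]
  congr 1
  ext p
  rw [mem_preimage, mem_closedBall, mem_closedBall, ← L.dist_map, L.apply_symm_apply]

theorem pull_compl {F : Set ℂ} (hF : IsClosed F) (h : μ (L '' F)ᶜ = 0) : pull μ Fᶜ = 0 := by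
  rw [pull, Measure.map_apply meas hF.measurableSet.compl]
  have h1 : (L.symm : PL → ℂ) ⁻¹' Fᶜ = (L '' F)ᶜ := by
    rw [preimage_compl]
    congr 1
    ext p
    constructor
    · intro hp
      exact ⟨L.symm p, hp, L.apply_symm_apply p⟩
    · rintro ⟨z, hz, rfl⟩
      rw [mem_preimage, L.symm_apply_apply]
      exact hz
  rw [h1, h]

theorem pull_support {F : Set ℂ} (h : μ.support = L '' F) : (pull μ).support = F := by
  ext x
  have h0 : x ∈ F ↔ L x ∈ μ.support := by
    rw [h]
    exact ⟨fun hx => ⟨x, hx, rfl⟩, fun ⟨y, hy, hxy⟩ => by rwa [← L.injective hxy]⟩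
  rw [h0, Measure.mem_support_iff_forall, Measure.mem_support_iff_forall]
  constructor
  · intro hx U hU
    obtain ⟨r, hr, hrU⟩ := Metric.nhds_basis_closedBall.mem_iff.1 hU
    refine lt_of_lt_of_le ?_ (measure_mono hrU)
    rw [← pull_ball]
    exact hx _ (closedBall_mem_nhds x hr)
  · intro hx U hU
    obtain ⟨r, hr, hrU⟩ := Metric.nhds_basis_closedBall.mem_iff.1 hU
    refine lt_of_lt_of_le ?_ (measure_mono hrU)
    rw [pull_ball]
    exact hx _ (closedBall_mem_nhds _ hr)

end Push

theorem isCompact {F : Set ℂ} (h : IsSelfAffineCarpet F) : IsCompact F := by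
  rcases h with h | h | h
  · obtain ⟨-, n, a, b, t, u, -, -, -, -, h3⟩ := h
    exact h3.1
  · obtain ⟨-, n, a, b, t, u, -, -, -, -, h3⟩ := h
    have h4 : IsCompact (swapPt '' (swapPt '' F)) := by
      refine h3.1.image ?_
      have : swapPt = fun z : ℂ => (z.im : ℂ) + z.re * Complex.I := by
        funext z
        apply Complex.ext <;> simp [swapPt]
      rw [this]
      fun_prop
    rw [image_image] at h4
    have h5 : (fun x => swapPt (swapPt x)) = fun x : ℂ => x := by
      funext x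
      exact Complex.ext rfl rfl
    rwa [h5, image_id'] at h4
  · obtain ⟨m, n, c, d, A, -, -, -, -, -, -, -, h8⟩ := h
    exact h8.1

theorem upper (F : Set ℂ) (hF : IsSelfAffineCarpet F) :
    ∃ μ : Measure ℂ, IsFiniteMeasure μ ∧ μ.support = F ∧ μ Fᶜ = 0 ∧
      UpperCond F (assouadDim F) μ := by
  obtain ⟨μ, hfin, h1, h2, c, hc, h3⟩ := Pool.Agent.CarpetMeasures.sharp_upper (carpet hF)
  rw [assouad] at h3
  refine ⟨pull μ, ?_, pull_support μ h1, pull_compl μ (isCompact hF).isClosed h2, c, hc, ?_⟩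
  · unfold pull
    infer_instance
  · intro ρ h4 h5 x hx r hr
    rw [pull_ball, pull_ball]
    exact h3 ρ h4 h5 (L x) ⟨x, hx, rfl⟩ r hr

theorem lowerM (F : Set ℂ) (hF : IsSelfAffineCarpet F) :
    ∃ μ : Measure ℂ, IsFiniteMeasure μ ∧ μ.support = F ∧ μ Fᶜ = 0 ∧
      LowerCond F (lowerDim F) μ := by
  obtain ⟨μ, hfin, h1, h2, c, hc, h3⟩ := Pool.Agent.CarpetMeasures.sharp_lower (carpet hF)
  rw [lower] at h3
  refine ⟨pull μ, ?_, pull_support μ h1, pull_compl μ (isCompact hF).isClosed h2, c, hc, ?_⟩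
  · unfold pull
    infer_instance
  · intro ρ h4 h5 x hx r hr hrd
    rw [pull_ball, pull_ball]
    exact h3 ρ h4 h5 (L x) ⟨x, hx, rfl⟩ r hr (by rw [L.isometry.diam_image]; exact hrd)

end Pool.MP_a82451_an.Conv
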